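import Pool.Agent.Y272.LC.Stm

set_option autoImplicit false

/-!
# Job LC GRN: elementary properties of the escape rate
-/

open Complex Filter Topology Metric Set MeasureTheory

namespace Pool.Agent.Y960.LC

open Pool.Agent.H712R2 Pool.Agent.H713R2 Pool.Agent.H713R2.AR Pool.Agent.Y272.LC

theorem continuous_iter2 (d n : ℕ) : Continuous (fun q : ℂ × ℂ => (fc d q.1)^[n] q.2) := by
  induction n with
  | zero => exact continuous_snd
  | succ n ih =>
    have h : (fun q : ℂ × ℂ => (fc d q.1)^[n + 1] q.2) =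
        fun q : ℂ × ℂ => ((fc d q.1)^[n] q.2) ^ d + q.1 := by
      funext q
      rw [Function.iterate_succ_apply']
      rfl
    rw [h]
    exact (ih.pow d).add continuous_fst

theorem continuous_gap2 (d n : ℕ) : Continuous (fun q : ℂ × ℂ => gap d q.1 q.2 n) := by
  unfold gap
  exact (Real.continuous_posLog.comp (continuous_iter2 d n).norm).div_const _

theorem continuous_green2 {d : ℕ} (hd : 2 ≤ d) :
    Continuous (fun q : ℂ × ℂ => green d q.1 q.2) := by
  have hdR : (2 : ℝ) ≤ d := by exact_mod_cast hd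
  rw [continuous_iff_continuousAt]
  intro q0
  obtain ⟨A, hA1, hA2⟩ : ∃ A : ℝ, 1 ≤ A ∧ ‖q0.1‖ < A :=
    ⟨max 1 (‖q0.1‖ + 1), le_max_left _ _, lt_of_lt_of_le (by linarith) (le_max_right _ _)⟩
  obtain ⟨U, hU⟩ : ∃ U : Set (ℂ × ℂ), U = {q | ‖q.1‖ < A} := ⟨_, rfl⟩
  have hUo : IsOpen U := by
    rw [hU]
    exact isOpen_lt continuous_fst.norm continuous_const
  have hu : TendstoUniformlyOn (fun n (q : ℂ × ℂ) => gap d q.1 q.2 n)
      (fun q : ℂ × ℂ => green d q.1 q.2) atTop U := by
    rw [Metric.tendstoUniformlyOn_iff]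
    intro ε hε
    have h1 : Tendsto (fun n : ℕ => Real.log (2 * A) / (d : ℝ) ^ n) atTop (𝓝 0) := by
      have h2 : Tendsto (fun n : ℕ => (d : ℝ) ^ n) atTop atTop :=
        tendsto_pow_atTop_atTop_of_one_lt (by linarith)
      exact h2.const_div_atTop _
    filter_upwards [h1.eventually (gt_mem_nhds hε)] with n hn q hq
    rw [hU] at hq
    have hq' : ‖q.1‖ < A := hq
    rw [Real.dist_eq]
    exact (green_near hd hA1 hq'.le q.2 n).trans_lt hn
  have hc : ContinuousOn (fun q : ℂ × ℂ => green d q.1 q.2) U :=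
    hu.continuousOn (Frequently.of_forall fun n => (continuous_gap2 d n).continuousOn)
  exact hc.continuousAt (hUo.mem_nhds (by rw [hU]; exact hA2))

theorem green_map {d : ℕ} (hd : 2 ≤ d) (c z : ℂ) : green d c (fc d c z) = d * green d c z := by
  have hd0 : (d : ℝ) ≠ 0 := by
    have : (0 : ℝ) < d := by exact_mod_cast (by omega : 0 < d)
    exact this.ne'
  have h1 := gap_tendsto hd c (fc d c z)
  have h2 : Tendsto (fun n => (d : ℝ) * gap d c z (n + 1)) atTop (𝓝 (d * green d c z)) :=
    ((tendsto_add_atTop_iff_nat 1).mpr (gap_tendsto hd c z)).const_mul _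
  refine tendsto_nhds_unique h1 (h2.congr fun n => ?_)
  unfold gap
  rw [Function.iterate_succ_apply, pow_succ]
  field_simp

theorem bounded_iff {d : ℕ} (hd : 2 ≤ d) (c z : ℂ) :
    (Bornology.IsBounded (range fun n : ℕ => (fc d c)^[n] z)) ↔ green d c z = 0 := by
  have hdR : (2 : ℝ) ≤ d := by exact_mod_cast hd
  constructor
  · intro h
    obtain ⟨R, hR⟩ := h.exists_norm_le
    have h1 : Tendsto (fun n : ℕ => Real.posLog R / (d : ℝ) ^ n) atTop (𝓝 0) := by
      have h2 : Tendsto (fun n : ℕ => (d : ℝ) ^ n) atTop atTop :=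
        tendsto_pow_atTop_atTop_of_one_lt (by linarith)
      exact h2.const_div_atTop _
    have h3 : Tendsto (gap d c z) atTop (𝓝 0) := by
      refine squeeze_zero (fun n => div_nonneg Real.posLog_nonneg (by positivity)) (fun n => ?_) h1
      unfold gap
      exact div_le_div_of_nonneg_right
        (Real.posLog_le_posLog (norm_nonneg _) (hR _ (mem_range_self n))) (by positivity)
    exact tendsto_nhds_unique (gap_tendsto hd c z) h3
  · intro h
    obtain ⟨A, hA1, hA2⟩ : ∃ A : ℝ, 1 ≤ A ∧ ‖c‖ ≤ A :=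
      ⟨max 1 ‖c‖, le_max_left _ _, le_max_right _ _⟩
    rw [isBounded_iff_forall_norm_le]
    refine ⟨2 * A, ?_⟩
    rintro _ ⟨n, rfl⟩
    have h1 := norm_iter_le hd hA1 hA2 z n
    rw [h, mul_zero, Real.exp_zero, mul_one] at h1
    exact h1

theorem posLog_le_self' {x : ℝ} (hx : 0 ≤ x) : Real.posLog x ≤ x := by
  unfold Real.posLog
  apply max_le hx
  rcases eq_or_lt_of_le hx with h | h
  · rw [← h, Real.log_zero]
  · have := Real.log_le_sub_one_of_pos h
    linarith

theorem mem_iff {d : ℕ} (hd : 2 ≤ d) (c : ℂ) :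
    c ∈ N62a1eb23.multibrotSet d ↔ green d c 0 = 0 := by
  have hdR : (2 : ℝ) ≤ d := by exact_mod_cast hd
  have hdef : c ∈ N62a1eb23.multibrotSet d ↔
      ¬ Tendsto (fun n => (fc d c)^[n] 0) atTop (Bornology.cobounded ℂ) := Iff.rfl
  rw [hdef, ← tendsto_norm_atTop_iff_cobounded]
  constructor
  · intro h
    by_contra hne
    have hpos : 0 < green d c 0 := lt_of_le_of_ne (green_nonneg hd c 0) (Ne.symm hne)
    apply h
    have h1 : ∀ᶠ n in atTop, green d c 0 / 2 < gap d c 0 n :=
      (gap_tendsto hd c 0).eventually (lt_mem_nhds (by linarith))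
    have h2 : Tendsto (fun n : ℕ => green d c 0 / 2 * (d : ℝ) ^ n) atTop atTop :=
      (tendsto_pow_atTop_atTop_of_one_lt (by linarith)).const_mul_atTop (by linarith)
    refine tendsto_atTop_mono' _ ?_ h2
    filter_upwards [h1] with n hn
    unfold gap at hn
    rw [lt_div_iff₀ (by positivity)] at hn
    exact hn.le.trans (posLog_le_self' (norm_nonneg _))
  · intro h ht
    have hb := (bounded_iff hd c 0).2 h
    obtain ⟨R, hR⟩ := hb.exists_norm_le
    obtain ⟨n, hn⟩ := (ht.eventually (eventually_gt_atTop R)).exists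
    have := hR _ (mem_range_self n)
    linarith

theorem t : St_Grn := fun _ hd =>
  ⟨continuous_green2 hd, green_map hd, mem_iff hd, bounded_iff hd⟩

end Pool.Agent.Y960.LC
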